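import Pool.Agent.Q296.Dist.Strict

/-! # `|Av_n(dist_r(12⋯m))| ≥ |Av_n(dist_r(12⋯(m-2) m (m-1)))|` for all `m`, `r`, `n`

More generally, for every `σ ∈ S_k`, `|Av_n(dist_r(σ ⊕ 12))| ≥ |Av_n(dist_r(σ ⊕ 21))|` for all `n`
and `r`, with strict inequality when `k, r ≥ 1` and `n ≥ (k + 1) (r + 1) + 2`.

`Pool.Agent.Q296.DP.Contains r q π` : `π` contains `dist_r(q)`;
`Pool.Agent.Q296.DP.av r q n` : the number of `π ∈ S_n` avoiding `dist_r(q)`;
`Pool.Agent.Q296.Dist.Is12 σ q` : `q = σ ⊕ 12`; `Pool.Agent.Q296.Dist.Is21 σ q` : `q = σ ⊕ 21`. -/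

set_option autoImplicit false

namespace Pool.Agent.Results.MP_47869a_co.DirectSumInequality

open Pool.Agent.Q296.DP Pool.Agent.Q296.Dist

/-- `12⋯(m-2) m (m-1)`: the identity of `S_m` with its last two entries exchanged -/
def tau (m : ℕ) (hm : 3 ≤ m) : Equiv.Perm (Fin m) :=
  Equiv.swap ⟨m - 2, by omega⟩ ⟨m - 1, by omega⟩

lemma is12_one (k : ℕ) : Is12 (1 : Equiv.Perm (Fin k)) (1 : Equiv.Perm (Fin (k + 2))) := by
  refine ⟨fun t => ?_, ?_, ?_⟩ <;> simp

lemma is21_tau (k : ℕ) (hk : 3 ≤ k + 2) : Is21 (1 : Equiv.Perm (Fin k)) (tau (k + 2) hk) := by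
  have e1 : (⟨k + 2 - 2, by omega⟩ : Fin (k + 2)) = (Fin.last k).castSucc := by
    apply Fin.ext; simp
  have e2 : (⟨k + 2 - 1, by omega⟩ : Fin (k + 2)) = Fin.last (k + 1) := by
    apply Fin.ext; simp
  unfold tau
  rw [e1, e2]
  refine ⟨fun t => ?_, ?_, ?_⟩
  · rw [Equiv.swap_apply_of_ne_of_ne]
    · simp
    · intro h
      have := congrArg Fin.val h
      simp only [Fin.val_castSucc, Fin.val_last] at this
      have := t.2; omega
    · intro h
      have := congrArg Fin.val h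
      simp only [Fin.val_castSucc, Fin.val_last] at this
      have := t.2; omega
  · rw [Equiv.swap_apply_left]; simp
  · rw [Equiv.swap_apply_right]; simp

/-- **Main theorem.** -/
theorem result :
    -- the general inequality
    (∀ (k r n : ℕ) (σ : Equiv.Perm (Fin k)) (q q' : Equiv.Perm (Fin (k + 2))),
      Is12 σ q → Is21 σ q' → av r q' n ≤ av r q n ∧
        (1 ≤ k → 1 ≤ r → (k + 1) * (r + 1) + 2 ≤ n → av r q' n < av r q n)) ∧
    -- Question 1, for all `n`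
    (∀ (m : ℕ) (hm : 3 ≤ m) (r n : ℕ),
      av r (tau m hm) n ≤ av r (1 : Equiv.Perm (Fin m)) n ∧
        (1 ≤ r → (m - 1) * (r + 1) + 2 ≤ n →
          av r (tau m hm) n < av r (1 : Equiv.Perm (Fin m)) n)) := by
  refine ⟨fun k r n σ q q' h12 h21 => ⟨av_le_av r n h12 h21, fun hk hr hn =>
    av_lt_av hk hr h12 h21 hn⟩, fun m hm r n => ?_⟩
  obtain ⟨k, rfl⟩ : ∃ k, m = k + 2 := ⟨m - 2, by omega⟩
  refine ⟨av_le_av r n (is12_one k) (is21_tau k hm), fun hr hn => ?_⟩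
  apply av_lt_av (by omega) hr (is12_one k) (is21_tau k hm)
  have e : k + 2 - 1 = k + 1 := by omega
  rw [e] at hn
  exact hn

end Pool.Agent.Results.MP_47869a_co.DirectSumInequality
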